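import Pool.Agent.W606.SN.Stm

/-! Project SN: the trees (`S_DEP`, `S_TREE`). -/

set_option autoImplicit false

namespace Pool.Agent.W439.SN.Tree

open Pool.Agent.W606.SN

theorem par_rt : ∀ m, par m (rt m) = rt m
  | 0 => rfl
  | _ + 1 => rfl

theorem dep_rt : ∀ m, dep m (rt m) = 0
  | 0 => rfl
  | _ + 1 => rfl

theorem dep_par : ∀ m (v : TV m), v ≠ rt m → dep m (par m v) + 1 = dep m v
  | 0, false, h => absurd rfl h
  | 0, true, _ => rfl
  | _ + 1, none, h => absurd rfl h
  | m + 1, some (i, Sum.inl t), _ => by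
    by_cases h : (t : ℕ) = 0
    · have h1 : par (m + 1) (some (i, Sum.inl t) : Option (Fin 3 × (Fin (N m) ⊕ TV m)))
          = (none : Option (Fin 3 × (Fin (N m) ⊕ TV m))) := by
        unfold par
        rw [dif_pos h]
      rw [h1]
      simp [dep, h]
    · have h1 : par (m + 1) (some (i, Sum.inl t) : Option (Fin 3 × (Fin (N m) ⊕ TV m)))
          = (some (i, Sum.inl ⟨(t : ℕ) - 1, by omega⟩) : Option (Fin 3 × (Fin (N m) ⊕ TV m))) := by
        unfold par
        rw [dif_neg h]
      rw [h1]
      simp only [dep]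
      omega
  | m + 1, some (i, Sum.inr w), _ => by
    by_cases h : w = rt m
    · have h1 : par (m + 1) (some (i, Sum.inr w) : Option (Fin 3 × (Fin (N m) ⊕ TV m)))
          = (some (i, Sum.inl ⟨N m - 1, Nat.sub_lt (N_pos m) Nat.one_pos⟩) :
            Option (Fin 3 × (Fin (N m) ⊕ TV m))) := by
        unfold par
        rw [if_pos h]
      rw [h1, h]
      simp only [dep, dep_rt]
      have := N_pos m
      omega
    · have h1 : par (m + 1) (some (i, Sum.inr w) : Option (Fin 3 × (Fin (N m) ⊕ TV m)))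
          = (some (i, Sum.inr (par m w)) : Option (Fin 3 × (Fin (N m) ⊕ TV m))) := by
        rw [par, if_neg h]
      rw [h1]
      simp only [dep]
      have := dep_par m w h
      omega

theorem dep_ok : S_DEP := ⟨par_rt, dep_rt, dep_par⟩

theorem adj_par {m : ℕ} {v : TV m} (h : v ≠ rt m) : (TG m).Adj v (par m v) := by
  refine ⟨fun h1 => ?_, Or.inl rfl⟩
  have h2 := dep_par m v h
  rw [← h1] at h2
  omega

/-- a set with the root which is closed under `par` is connected -/
theorem conn_of_par (m : ℕ) (W : Set (TV m)) (hr : rt m ∈ W) (hp : ∀ v ∈ W, par m v ∈ W) :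
    Conn (TG m) W := by
  have key : ∀ n : ℕ, ∀ v ∈ W, dep m v = n →
      Relation.ReflTransGen (fun a b => a ∈ W ∧ b ∈ W ∧ (TG m).Adj a b) v (rt m) := by
    intro n
    induction n with
    | zero =>
      intro v _ h0
      by_cases h : v = rt m
      · rw [h]
      · have := dep_par m v h
        omega
    | succ n ih =>
      intro v hv hn
      have h : v ≠ rt m := by
        rintro rfl
        rw [dep_rt] at hn
        omega
      have h1 := dep_par m v h
      exact Relation.ReflTransGen.head ⟨hv, hp v hv, adj_par h⟩ (ih _ (hp v hv) (by omega))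
  have hsymm : ∀ a b, Relation.ReflTransGen (fun a b => a ∈ W ∧ b ∈ W ∧ (TG m).Adj a b) a b →
      Relation.ReflTransGen (fun a b => a ∈ W ∧ b ∈ W ∧ (TG m).Adj a b) b a := by
    intro a b hab
    induction hab with
    | refl => exact Relation.ReflTransGen.refl
    | tail _ h ih => exact Relation.ReflTransGen.head ⟨h.2.1, h.1, h.2.2.symm⟩ ih
  intro v hv v' hv'
  exact (key _ v hv rfl).trans (hsymm _ _ (key _ v' hv' rfl))

theorem connected (m : ℕ) : (TG m).Connected := by
  have key : ∀ n : ℕ, ∀ v, dep m v = n → (TG m).Reachable v (rt m) := by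
    intro n
    induction n with
    | zero =>
      intro v h0
      by_cases h : v = rt m
      · rw [h]
      · have := dep_par m v h
        omega
    | succ n ih =>
      intro v hn
      have h : v ≠ rt m := by
        rintro rfl
        rw [dep_rt] at hn
        omega
      have h1 := dep_par m v h
      exact (adj_par h).reachable.trans (ih _ (by omega))
  have : Nonempty (TV m) := ⟨rt m⟩
  exact SimpleGraph.Connected.mk fun v w => (key _ v rfl).trans (key _ w rfl).symm

theorem hasPot (m : ℕ) : HasPot (TG m) := by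
  intro w hw
  set k : TV m → ZMod 2 := fun v =>
    ∑ j ∈ Finset.range (dep m v), w ((par m)^[j] v) ((par m)^[j + 1] v) with hk
  have hkv : ∀ v, v ≠ rt m → k v = k (par m v) + w v (par m v) := by
    intro v hv
    simp only [hk]
    rw [← dep_par m v hv, Finset.sum_range_succ']
    simp only [Function.iterate_succ_apply, Function.iterate_zero, id]
  have hz : ∀ a : ZMod 2, a + a = 0 := fun a => CharTwo.add_self_eq_zero a
  refine ⟨k, fun a b hab => ?_⟩
  rcases hab.2 with h | h
  · have ha : a ≠ rt m := by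
      rintro rfl
      rw [par_rt] at h
      exact hab.1 h
    have := hkv a ha
    rw [h] at this
    rw [this]
    linear_combination hz (k b)
  · have hb : b ≠ rt m := by
      rintro rfl
      rw [par_rt] at h
      exact hab.1 h.symm
    have := hkv b hb
    rw [h, hw b a] at this
    rw [this]
    linear_combination hz (k a)

theorem conn_image {V V' : Type} {G : SimpleGraph V} {G' : SimpleGraph V'} {φ : V → V'}
    (hφ : ∀ a b, G.Adj a b → G'.Adj (φ a) (φ b)) {W : Set V} (h : Conn G W) :
    Conn G' (φ '' W) := by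
  rintro _ ⟨v, hv, rfl⟩ _ ⟨v', hv', rfl⟩
  refine (h v hv v' hv').lift φ ?_
  rintro a b ⟨ha, hb, hab⟩
  exact ⟨Set.mem_image_of_mem _ ha, Set.mem_image_of_mem _ hb, hφ a b hab⟩

theorem deep_image {V V' : Type} {G : SimpleGraph V} {G' : SimpleGraph V'} {φ : V → V'}
    (hi : Function.Injective φ) (hφ : ∀ a b, G.Adj a b → G'.Adj (φ a) (φ b)) :
    ∀ (m : ℕ) (W : Set V), Deep G m W → Deep G' m (φ '' W)
  | 0, W, ⟨v, hv, v', hv', h⟩ =>
    ⟨φ v, Set.mem_image_of_mem _ hv, φ v', Set.mem_image_of_mem _ hv', hφ _ _ h⟩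
  | m + 1, W, ⟨W', h1, h2, h3, h4, h5⟩ => by
    refine ⟨fun i => φ '' W' i, fun i => Set.image_mono (h1 i), fun i j hij =>
      (Set.disjoint_image_iff hi).2 (h2 i j hij), fun i => conn_image hφ (h3 i), fun i => ?_,
      fun i => deep_image hi hφ m _ (h5 i)⟩
    rw [← Set.image_sdiff hi]
    exact conn_image hφ (h4 i)

/-- the copies -/
def cp (m : ℕ) (i : Fin 3) (w : TV m) : TV (m + 1) :=
  (some (i, Sum.inr w) : Option (Fin 3 × (Fin (N m) ⊕ TV m)))

theorem cp_inj (m : ℕ) (i : Fin 3) : Function.Injective (cp m i) := by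
  intro a b h
  have h1 : (some (i, Sum.inr a) : Option (Fin 3 × (Fin (N m) ⊕ TV m)))
    = some (i, Sum.inr b) := h
  simpa using h1

theorem cp_ne (m : ℕ) {i j : Fin 3} (hij : i ≠ j) (a b : TV m) : cp m i a ≠ cp m j b := by
  intro h
  have h1 : (some (i, Sum.inr a) : Option (Fin 3 × (Fin (N m) ⊕ TV m)))
    = some (j, Sum.inr b) := h
  simp only [Option.some.injEq, Prod.mk.injEq] at h1
  exact hij h1.1

theorem par_cp (m : ℕ) (i : Fin 3) {w : TV m} (h : w ≠ rt m) :
    par (m + 1) (cp m i w) = cp m i (par m w) := by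
  unfold cp
  rw [par, if_neg h]

theorem cp_adj (m : ℕ) (i : Fin 3) (a b : TV m) (h : (TG m).Adj a b) :
    (TG (m + 1)).Adj (cp m i a) (cp m i b) := by
  refine ⟨fun h1 => h.1 (cp_inj m i h1), ?_⟩
  rcases h.2 with h1 | h1
  · left
    have ha : a ≠ rt m := by
      rintro rfl
      rw [par_rt] at h1
      exact h.1 h1
    rw [par_cp m i ha, h1]
  · right
    have hb : b ≠ rt m := by
      rintro rfl
      rw [par_rt] at h1
      exact h.1 h1.symm
    rw [par_cp m i hb, h1]

theorem par_out (m : ℕ) (i : Fin 3) (v : TV (m + 1)) (hv : v ∉ Set.range (cp m i)) :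
    par (m + 1) v ∉ Set.range (cp m i) := by
  rintro ⟨w, hw⟩
  apply hv
  have hw' : (some (i, Sum.inr w) : Option (Fin 3 × (Fin (N m) ⊕ TV m))) = par (m + 1) v := hw
  match v, hv, hw' with
  | none, _, h => exact absurd h (by simp [par])
  | some (j, Sum.inl t), _, h =>
    exfalso
    by_cases h0 : (t : ℕ) = 0
    · have h1 : par (m + 1) (some (j, Sum.inl t) : Option (Fin 3 × (Fin (N m) ⊕ TV m)))
          = (none : Option (Fin 3 × (Fin (N m) ⊕ TV m))) := by
        unfold par
        rw [dif_pos h0]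
      rw [h1] at h
      simp at h
    · have h1 : par (m + 1) (some (j, Sum.inl t) : Option (Fin 3 × (Fin (N m) ⊕ TV m)))
          = (some (j, Sum.inl ⟨(t : ℕ) - 1, by omega⟩) : Option (Fin 3 × (Fin (N m) ⊕ TV m))) := by
        unfold par
        rw [dif_neg h0]
      rw [h1] at h
      simp at h
  | some (j, Sum.inr u), _, h =>
    by_cases h0 : u = rt m
    · exfalso
      have h1 : par (m + 1) (some (j, Sum.inr u) : Option (Fin 3 × (Fin (N m) ⊕ TV m)))
          = (some (j, Sum.inl ⟨N m - 1, Nat.sub_lt (N_pos m) Nat.one_pos⟩) :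
            Option (Fin 3 × (Fin (N m) ⊕ TV m))) := by
        unfold par
        rw [if_pos h0]
      rw [h1] at h
      simp at h
    · have h1 : par (m + 1) (some (j, Sum.inr u) : Option (Fin 3 × (Fin (N m) ⊕ TV m)))
          = (some (j, Sum.inr (par m u)) : Option (Fin 3 × (Fin (N m) ⊕ TV m))) := by
        rw [par, if_neg h0]
      rw [h1] at h
      simp only [Option.some.injEq, Prod.mk.injEq] at h
      obtain ⟨rfl, _⟩ := h
      exact ⟨u, rfl⟩

theorem deep : ∀ m, Deep (TG m) m Set.univ
  | 0 => ⟨(false : Bool), trivial, (true : Bool), trivial, ⟨Bool.false_ne_true, Or.inr rfl⟩⟩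
  | m + 1 => by
    refine ⟨fun i => cp m i '' Set.univ, fun i => Set.subset_univ _, fun i j hij => ?_,
      fun i => conn_image (cp_adj m i) (conn_of_par m _ trivial fun _ _ => trivial), fun i => ?_,
      fun i => deep_image (cp_inj m i) (cp_adj m i) m _ (deep m)⟩
    · rw [Set.disjoint_left]
      rintro _ ⟨a, _, rfl⟩ ⟨b, _, hb⟩
      exact cp_ne m hij a b hb.symm
    · change Conn (TG (m + 1)) (Set.univ \ (cp m i '' Set.univ))
      rw [Set.image_univ]
      refine conn_of_par (m + 1) _ ⟨trivial, ?_⟩ fun v hv => ⟨trivial, par_out m i v hv.2⟩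
      rintro ⟨w, hw⟩
      have hw' : (some (i, Sum.inr w) : Option (Fin 3 × (Fin (N m) ⊕ TV m))) = none := hw
      simp at hw'

theorem main : S_TREE := fun m => ⟨connected m, hasPot m, deep m⟩

end Pool.Agent.W439.SN.Tree
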